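import Pool.Agent.Lib.MP_abd978_an.UN.Interfaces

/-!
# CPF: finitely many components meet a compact set
-/

set_option autoImplicit false

open MeasureTheory Metric Set Filter Topology ContDiff
open scoped Gradient RealInnerProductSpace NNReal ENNReal

namespace Pool.Agent.Lib.MP_abd978_an.UN.H83

theorem cpf : CpfStatement := by
  classical
  intro n Ω f K z ε hΩ hf hK hKΩ hε
  set V : Set (E n) := Ω ∩ f ⁻¹' ball z ε with hV
  have hVo : IsOpen V := hf.isOpen_inter_preimage hΩ isOpen_ball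
  set K' : Set (E n) := K ∩ f ⁻¹' closedBall z (ε / 2) with hK'
  have hK'c : IsCompact K' :=
    hK.of_isClosed_subset ((hf.mono hKΩ).preimage_isClosed_of_isClosed hK.isClosed
      isClosed_closedBall) inter_subset_left
  have hK'V : K' ⊆ V := by
    rintro x ⟨hx1, hx2⟩
    have h1 : dist (f x) z ≤ ε / 2 := mem_closedBall.mp (mem_preimage.mp hx2)
    exact ⟨hKΩ hx1, mem_preimage.mpr (mem_ball.mpr (by linarith))⟩
  have hopen : ∀ x, IsOpen (Cp Ω f z ε x) := fun x => hVo.connectedComponentIn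
  have hmem : ∀ x ∈ K', x ∈ Cp Ω f z ε x := fun x hx => mem_connectedComponentIn (hK'V hx)
  obtain ⟨t₀, hcov⟩ := hK'c.elim_nhds_subcover' (fun x _ => Cp Ω f z ε x)
    (fun x hx => (hopen x).mem_nhds (hmem x hx))
  set t₁ : Finset (E n) := Finset.image Subtype.val t₀ with ht₁
  have hg : ∀ S : Set (E n), ∃ y, S ∈ t₁.image (Cp Ω f z ε) → y ∈ t₁ ∧ Cp Ω f z ε y = S := by
    intro S
    by_cases hS : S ∈ t₁.image (Cp Ω f z ε)
    · obtain ⟨y, hy, hyS⟩ := Finset.mem_image.mp hS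
      exact ⟨y, fun _ => ⟨hy, hyS⟩⟩
    · exact ⟨0, fun h => absurd h hS⟩
  choose g hg using hg
  have ht₁K : ∀ y ∈ t₁, y ∈ K' := by
    intro y hy
    obtain ⟨w, _, rfl⟩ := Finset.mem_image.mp hy
    exact w.2
  refine ⟨(t₁.image (Cp Ω f z ε)).image g, ?_, ?_, ?_⟩
  · intro y hy
    obtain ⟨S, hS, rfl⟩ := Finset.mem_image.mp hy
    obtain ⟨h1, h2⟩ := ht₁K _ (hg S hS).1
    exact ⟨h1, mem_closedBall.mp (mem_preimage.mp h2)⟩
  · intro y hy y' hy' hne
    obtain ⟨S, hS, rfl⟩ := Finset.mem_image.mp (Finset.mem_coe.mp hy)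
    obtain ⟨S', hS', rfl⟩ := Finset.mem_image.mp (Finset.mem_coe.mp hy')
    rw [Function.onFun, Set.disjoint_left]
    intro w hw hw'
    apply hne
    have h1 : Cp Ω f z ε (g S) = Cp Ω f z ε w := connectedComponentIn_eq hw
    have h2 : Cp Ω f z ε (g S') = Cp Ω f z ε w := connectedComponentIn_eq hw'
    have h3 : S = S' := by rw [← (hg S hS).2, ← (hg S' hS').2, h1, h2]
    rw [h3]
  · intro x hx hxz
    have hx' : x ∈ K' := ⟨hx, mem_preimage.mpr (mem_closedBall.mpr hxz)⟩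
    obtain ⟨y, hy, hxy⟩ := mem_iUnion₂.mp (hcov hx')
    have hy1 : (y : E n) ∈ t₁ := Finset.mem_image.mpr ⟨y, hy, rfl⟩
    have hS : Cp Ω f z ε y ∈ t₁.image (Cp Ω f z ε) := Finset.mem_image.mpr ⟨y, hy1, rfl⟩
    refine ⟨g (Cp Ω f z ε y), Finset.mem_image.mpr ⟨_, hS, rfl⟩, ?_⟩
    rw [(hg _ hS).2]
    exact hxy

end Pool.Agent.Lib.MP_abd978_an.UN.H83
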