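import Pool.Agent.Lib.MP_abd978_an.UN.Interfaces

/-!
# PART: partitions of unity at scale `ε`
-/

set_option autoImplicit false

open MeasureTheory Metric Set Filter Topology ContDiff
open scoped Gradient RealInnerProductSpace NNReal ENNReal

namespace Pool.Agent.Lib.MP_abd978_an.UN.H83

/-- The number of separated points in a ball. -/
theorem card_sep {n : ℕ} (ε : ℝ) (hε : 0 < ε) (x : E n) (t : Finset (E n))
    (hsep : ∀ z ∈ t, ∀ w ∈ t, z ≠ w → ε / 4 ≤ dist z w) (ht : ∀ z ∈ t, dist x z < 2 * ε) :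
    (t.card : ℝ) ≤ 17 ^ n := by
  let μ : Measure (E n) := volume
  set δ : ℝ := ε / 8 with hδ
  set ρ : ℝ := 17 * ε / 8 with hρ
  have δpos : 0 < δ := by positivity
  have ρpos : 0 < ρ := by positivity
  set A := ⋃ c ∈ t, ball (c : E n) δ with hA
  have D : Set.Pairwise (t : Set (E n)) (Function.onFun Disjoint fun c => ball (c : E n) δ) := by
    intro c hc d hd hcd
    apply ball_disjoint_ball
    have := hsep c hc d hd hcd
    rw [hδ]
    linarith
  have A_subset : A ⊆ ball x ρ := by
    refine iUnion₂_subset fun y hy => ?_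
    apply ball_subset_ball'
    have := ht y hy
    rw [dist_comm] at this
    rw [hδ, hρ]
    linarith
  have hfr : Module.finrank ℝ (E n) = n := by simp
  have I : (t.card : ℝ≥0∞) * ENNReal.ofReal (δ ^ n) * μ (ball 0 1) ≤
      ENNReal.ofReal (ρ ^ n) * μ (ball 0 1) :=
    calc
      (t.card : ℝ≥0∞) * ENNReal.ofReal (δ ^ n) * μ (ball 0 1) = μ A := by
        rw [hA, measure_biUnion_finset D fun c _ => measurableSet_ball]
        simp only [μ.addHaar_ball_of_pos _ δpos, hfr]
        simp only [Finset.sum_const, nsmul_eq_mul, mul_assoc]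
      _ ≤ μ (ball x ρ) := measure_mono A_subset
      _ = ENNReal.ofReal (ρ ^ n) * μ (ball 0 1) := by
        simp only [μ.addHaar_ball_of_pos _ ρpos, hfr]
  have J : (t.card : ℝ≥0∞) * ENNReal.ofReal (δ ^ n) ≤ ENNReal.ofReal (ρ ^ n) :=
    (ENNReal.mul_le_mul_iff_left (measure_ball_pos _ _ zero_lt_one).ne' measure_ball_lt_top.ne).1 I
  have K := ENNReal.toReal_le_of_le_ofReal (pow_nonneg ρpos.le _) J
  rw [ENNReal.toReal_mul, ENNReal.toReal_natCast,
    ENNReal.toReal_ofReal (pow_nonneg δpos.le _)] at K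
  have h1 : ρ ^ n = 17 ^ n * δ ^ n := by
    rw [← mul_pow]
    congr 1
    rw [hρ, hδ]
    ring
  rw [h1] at K
  exact le_of_mul_le_mul_right K (pow_pos δpos n)

/-- Maximal separated sets. -/
theorem exists_net {n : ℕ} (K : Set (E n)) (hK : IsCompact K) (δ : ℝ) (hδ : 0 < δ) :
    ∃ s : Finset (E n), (∀ z ∈ s, ∀ w ∈ s, z ≠ w → δ ≤ dist z w) ∧
      ∀ x ∈ K, ∃ z ∈ s, dist x z < δ := by
  classical
  obtain ⟨t, -, htf, htK⟩ := hK.finite_cover_balls (e := δ / 2) (by positivity)
  set P : Finset (E n) → Prop := fun s => (∀ z ∈ s, z ∈ K) ∧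
    ∀ z ∈ s, ∀ w ∈ s, z ≠ w → δ ≤ dist z w with hP
  have hbound : ∀ s, P s → s.card ≤ htf.toFinset.card := by
    intro s hs
    have hg : ∀ z : E n, ∃ c, z ∈ s → c ∈ t ∧ dist z c < δ / 2 := by
      intro z
      by_cases hz : z ∈ s
      · obtain ⟨c, hc, hzc⟩ := mem_iUnion₂.mp (htK (hs.1 z hz))
        exact ⟨c, fun _ => ⟨hc, mem_ball.mp hzc⟩⟩
      · exact ⟨0, fun h => absurd h hz⟩
    choose g hg using hg
    refine Finset.card_le_card_of_injOn g (fun z hz => ?_) ?_
    · simpa using (hg z hz).1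
    · intro z hz w hw hzw
      by_contra hne
      have h1 := (hg z hz).2
      have h2 := (hg w hw).2
      have h3 := hs.2 z hz w hw hne
      rw [hzw] at h1
      have h4 := dist_triangle_right z w (g w)
      linarith
  have hex : ∃ s, P s ∧ ∀ s', P s' → s'.card ≤ s.card := by
    have hne : {k : ℕ | ∃ s, P s ∧ s.card = k}.Nonempty := ⟨0, ∅, by simp [hP], rfl⟩
    have hbd : BddAbove {k : ℕ | ∃ s, P s ∧ s.card = k} := by
      refine ⟨htf.toFinset.card, ?_⟩
      rintro k ⟨s, hs, rfl⟩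
      exact hbound s hs
    obtain ⟨s, hs, hsc⟩ := Nat.sSup_mem hne hbd
    refine ⟨s, hs, fun s' hs' => ?_⟩
    rw [hsc]
    exact le_csSup hbd ⟨s', hs', rfl⟩
  obtain ⟨s, hs, hmax⟩ := hex
  refine ⟨s, hs.2, fun x hx => ?_⟩
  by_contra hcon
  push Not at hcon
  have hxs : x ∉ s := fun h => by
    have := hcon x h
    rw [dist_self] at this
    linarith
  have hP' : P (insert x s) := by
    refine ⟨fun z hz => ?_, fun z hz w hw hzw => ?_⟩
    · rcases Finset.mem_insert.mp hz with rfl | hz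
      · exact hx
      · exact hs.1 z hz
    · rcases Finset.mem_insert.mp hz with rfl | hz'
      · rcases Finset.mem_insert.mp hw with rfl | hw'
        · exact absurd rfl hzw
        · exact hcon w hw'
      · rcases Finset.mem_insert.mp hw with rfl | hw'
        · rw [dist_comm]
          exact hcon z hz'
        · exact hs.2 z hz' w hw' hzw
  have := hmax _ hP'
  rw [Finset.card_insert_of_notMem hxs] at this
  omega

theorem one_le_sum_add_prod {ι : Type} (s : Finset ι) (b : ι → ℝ)
    (h0 : ∀ i ∈ s, 0 ≤ b i) (h1 : ∀ i ∈ s, b i ≤ 1) :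
    1 ≤ ∑ i ∈ s, b i + ∏ i ∈ s, (1 - b i) := by
  classical
  induction s using Finset.induction_on with
  | empty => simp
  | insert a s ha ih =>
    rw [Finset.sum_insert ha, Finset.prod_insert ha]
    have ih' := ih (fun i hi => h0 i (Finset.mem_insert_of_mem hi))
      (fun i hi => h1 i (Finset.mem_insert_of_mem hi))
    have ha0 := h0 a (Finset.mem_insert_self _ _)
    have hp : ∏ i ∈ s, (1 - b i) ≤ 1 := by
      apply Finset.prod_le_one
      · intro i hi
        have := h1 i (Finset.mem_insert_of_mem hi)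
        linarith
      · intro i hi
        have := h0 i (Finset.mem_insert_of_mem hi)
        linarith
    nlinarith

theorem abs_prod_sub_le {ι : Type} (s : Finset ι) (b c : ι → ℝ)
    (hb : ∀ i ∈ s, b i ∈ Icc (0 : ℝ) 1) (hc : ∀ i ∈ s, c i ∈ Icc (0 : ℝ) 1) :
    |∏ i ∈ s, (1 - b i) - ∏ i ∈ s, (1 - c i)| ≤ ∑ i ∈ s, |b i - c i| := by
  classical
  induction s using Finset.induction_on with
  | empty => simp
  | insert a s ha ih =>
    rw [Finset.sum_insert ha, Finset.prod_insert ha, Finset.prod_insert ha]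
    have ih' := ih (fun i hi => hb i (Finset.mem_insert_of_mem hi))
      (fun i hi => hc i (Finset.mem_insert_of_mem hi))
    have hba := hb a (Finset.mem_insert_self _ _)
    have hca := hc a (Finset.mem_insert_self _ _)
    have hp0 : 0 ≤ ∏ i ∈ s, (1 - b i) := Finset.prod_nonneg fun i hi => by
      have := (hb i (Finset.mem_insert_of_mem hi)).2
      linarith
    have hp1 : ∏ i ∈ s, (1 - b i) ≤ 1 := by
      apply Finset.prod_le_one
      · intro i hi
        have := (hb i (Finset.mem_insert_of_mem hi)).2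
        linarith
      · intro i hi
        have := (hb i (Finset.mem_insert_of_mem hi)).1
        linarith
    have e : (1 - b a) * ∏ i ∈ s, (1 - b i) - (1 - c a) * ∏ i ∈ s, (1 - c i) =
        (c a - b a) * ∏ i ∈ s, (1 - b i) +
          (1 - c a) * (∏ i ∈ s, (1 - b i) - ∏ i ∈ s, (1 - c i)) := by ring
    rw [e]
    refine (abs_add_le _ _).trans ?_
    rw [abs_mul, abs_mul, abs_of_nonneg hp0, abs_of_nonneg (by linarith [hca.2] : 0 ≤ 1 - c a),
      abs_sub_comm (c a) (b a)]
    have h1 : |b a - c a| * ∏ i ∈ s, (1 - b i) ≤ |b a - c a| :=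
      mul_le_of_le_one_right (abs_nonneg _) hp1
    have h2 : (1 - c a) * |∏ i ∈ s, (1 - b i) - ∏ i ∈ s, (1 - c i)| ≤
        |∏ i ∈ s, (1 - b i) - ∏ i ∈ s, (1 - c i)| :=
      mul_le_of_le_one_left (abs_nonneg _) (by linarith [hca.1])
    linarith

theorem part : PartStatement := by
  classical
  intro n
  let b : ContDiffBump (0 : E n) := ⟨1, 2, one_pos, one_lt_two⟩
  have hbs : ContDiff ℝ ∞ (b : E n → ℝ) := b.contDiff
  obtain ⟨C₀, hC₀⟩ := (hbs.continuous_fderiv (by simp)).bounded_above_of_compact_support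
    (b.hasCompactSupport.fderiv (𝕜 := ℝ))
  have hC₀0 : 0 ≤ C₀ := (norm_nonneg _).trans (hC₀ 0)
  have hlip : ∀ x y : E n, |b x - b y| ≤ C₀ * ‖x - y‖ := by
    intro x y
    have := convex_univ.norm_image_sub_le_of_norm_fderiv_le (𝕜 := ℝ) (f := (b : E n → ℝ))
      (fun z _ => hbs.differentiable (by simp) z) (fun z _ => hC₀ z) (mem_univ y) (mem_univ x)
    simpa using this
  have hb0 : ∀ x, 0 ≤ b x := fun x => b.nonneg
  have hb1 : ∀ x, b x ≤ 1 := fun x => b.le_one
  have hbz : ∀ x : E n, 2 ≤ ‖x‖ → b x = 0 := by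
    intro x hx
    apply b.zero_of_le_dist
    simpa [b] using hx
  have hbo : ∀ x : E n, ‖x‖ ≤ 1 → b x = 1 := by
    intro x hx
    apply b.one_of_mem_closedBall
    simpa [b] using hx
  set N : ℝ := 17 ^ n with hN
  have hN0 : 0 < N := by positivity
  refine ⟨N + (1 + 2 * N) * (4 * C₀), by positivity, ?_⟩
  intro K ε hK hε
  obtain ⟨s, hsep, hcov⟩ := exists_net K hK (ε / 4) (by positivity)
  -- the bumps
  set B : E n → E n → ℝ := fun z x => b ((4 / ε) • (x - z)) with hB
  have hBs : ∀ z, ContDiff ℝ ∞ (B z) := fun z =>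
    hbs.comp ((contDiff_id.sub contDiff_const).const_smul (4 / ε))
  have hB0 : ∀ z x, 0 ≤ B z x := fun z x => hb0 _
  have hB1 : ∀ z x, B z x ≤ 1 := fun z x => hb1 _
  have hBlip : ∀ z x y, |B z x - B z y| ≤ 4 * C₀ / ε * ‖x - y‖ := by
    intro z x y
    refine (hlip _ _).trans ?_
    rw [← smul_sub, norm_smul, sub_sub_sub_cancel_right, Real.norm_eq_abs,
      abs_of_pos (by positivity : 0 < 4 / ε)]
    apply le_of_eq
    field_simp
  have hBz : ∀ z x, ε / 2 ≤ dist x z → B z x = 0 := by
    intro z x h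
    apply hbz
    rw [norm_smul, Real.norm_eq_abs, abs_of_pos (by positivity : 0 < 4 / ε), ← dist_eq_norm]
    calc (2 : ℝ) = 4 / ε * (ε / 2) := by field_simp; norm_num
      _ ≤ 4 / ε * dist x z := by gcongr
  have hBo : ∀ z x, dist x z ≤ ε / 4 → B z x = 1 := by
    intro z x h
    apply hbo
    rw [norm_smul, Real.norm_eq_abs, abs_of_pos (by positivity : 0 < 4 / ε), ← dist_eq_norm]
    calc 4 / ε * dist x z ≤ 4 / ε * (ε / 4) := by gcongr
      _ = 1 := by field_simp
  set D : E n → ℝ := fun x => ∑ z ∈ s, B z x + ∏ z ∈ s, (1 - B z x) with hD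
  have hD1 : ∀ x, 1 ≤ D x := fun x =>
    one_le_sum_add_prod s (fun z => B z x) (fun z _ => hB0 z x) (fun z _ => hB1 z x)
  have hDs : ContDiff ℝ ∞ D :=
    (ContDiff.sum fun z _ => hBs z).add (contDiff_prod fun z _ => contDiff_const.sub (hBs z))
  have hovl : ∀ (x : E n) (t : Finset (E n)), t ⊆ s → (∀ z ∈ t, dist x z < 2 * ε) →
      (t.card : ℝ) ≤ N := fun x t hts ht =>
    card_sep ε hε x t (fun z hz w hw => hsep z (hts hz) w (hts hw)) ht
  have hsum : ∀ x, ∀ y ∈ ball x ε, ∑ z ∈ s, |B z y - B z x| ≤ N * (4 * C₀ / ε * ‖y - x‖) := by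
    intro x y hy
    set t := s.filter fun z => dist x z < 2 * ε with ht
    have h1 : ∑ z ∈ s, |B z y - B z x| = ∑ z ∈ t, |B z y - B z x| := by
      rw [ht, Finset.sum_filter]
      apply Finset.sum_congr rfl
      intro z _
      split_ifs with h
      · rfl
      · push Not at h
        have hxy : dist y x < ε := hy
        have h2 : dist x z ≤ dist x y + dist y z := dist_triangle _ _ _
        rw [dist_comm x y] at h2
        rw [hBz z x (by linarith), hBz z y (by linarith)]
        simp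
    rw [h1]
    calc ∑ z ∈ t, |B z y - B z x| ≤ ∑ z ∈ t, 4 * C₀ / ε * ‖y - x‖ :=
          Finset.sum_le_sum fun z _ => hBlip z y x
      _ = t.card * (4 * C₀ / ε * ‖y - x‖) := by rw [Finset.sum_const, nsmul_eq_mul]
      _ ≤ N * (4 * C₀ / ε * ‖y - x‖) := by
          gcongr
          exact hovl x t (Finset.filter_subset _ _) fun z hz => (Finset.mem_filter.mp hz).2
  refine ⟨s, fun z x => B z x / D x, ?_, ?_, ?_, ?_, ?_, ?_⟩
  · intro z _
    exact (hBs z).div hDs fun x => (lt_of_lt_of_le one_pos (hD1 x)).ne'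
  · intro z _ x
    have h1 := hD1 x
    refine ⟨div_nonneg (hB0 z x) (by linarith), ?_⟩
    rw [div_le_one (by linarith)]
    exact (hB1 z x).trans h1
  · intro z _
    apply closure_minimal _ isClosed_closedBall
    intro x hx
    rw [mem_closedBall]
    by_contra hcon
    push Not at hcon
    apply hx
    simp only
    rw [hBz z x hcon.le, zero_div]
  · intro z hz x
    have hnorm : ‖∇ (fun x => B z x / D x) x‖ = ‖fderiv ℝ (fun x => B z x / D x) x‖ := by
      rw [gradient, LinearIsometryEquiv.norm_map]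
    rw [hnorm]
    refine norm_fderiv_le_of_lip' ℝ (by positivity) ?_
    filter_upwards [ball_mem_nhds x hε] with y hy
    have hx1 := hD1 x
    have hy1 := hD1 y
    have hS := hsum x y hy
    have hDd : |D y - D x| ≤ 2 * ∑ w ∈ s, |B w y - B w x| := by
      have e : D y - D x = ∑ w ∈ s, (B w y - B w x) +
          (∏ w ∈ s, (1 - B w y) - ∏ w ∈ s, (1 - B w x)) := by
        simp only [hD, Finset.sum_sub_distrib]
        ring
      rw [e]
      refine (abs_add_le _ _).trans ?_
      have h1 := Finset.abs_sum_le_sum_abs (fun w => B w y - B w x) s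
      have h2 := abs_prod_sub_le s (fun w => B w y) (fun w => B w x)
        (fun w _ => ⟨hB0 w y, hB1 w y⟩) (fun w _ => ⟨hB0 w x, hB1 w x⟩)
      linarith
    have hBd : |B z y - B z x| ≤ 4 * C₀ / ε * ‖y - x‖ := hBlip z y x
    have e : B z y / D y - B z x / D x =
        (B z y - B z x) / D y - B z x * (D y - D x) / (D x * D y) := by
      field_simp
      ring
    rw [Real.norm_eq_abs, e]
    refine (abs_sub _ _).trans ?_
    have h1 : |(B z y - B z x) / D y| ≤ |B z y - B z x| := by
      rw [abs_div, abs_of_pos (by linarith : 0 < D y)]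
      exact div_le_self (abs_nonneg _) hy1
    have h2 : |B z x * (D y - D x) / (D x * D y)| ≤ |D y - D x| := by
      rw [abs_div, abs_mul, abs_of_nonneg (hB0 z x),
        abs_of_pos (by positivity : 0 < D x * D y)]
      have h3 : B z x * |D y - D x| ≤ |D y - D x| :=
        mul_le_of_le_one_left (abs_nonneg _) (hB1 z x)
      refine (div_le_self (mul_nonneg (hB0 z x) (abs_nonneg _)) ?_).trans h3
      nlinarith
    have h4 : (0 : ℝ) ≤ C₀ / ε * ‖y - x‖ := by positivity
    calc |(B z y - B z x) / D y| + |B z x * (D y - D x) / (D x * D y)|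
        ≤ 4 * C₀ / ε * ‖y - x‖ + 2 * (N * (4 * C₀ / ε * ‖y - x‖)) := by linarith
      _ ≤ (N + (1 + 2 * N) * (4 * C₀)) / ε * ‖y - x‖ := by
          have h5 : 0 ≤ N / ε * ‖y - x‖ := by positivity
          have e2 : (N + (1 + 2 * N) * (4 * C₀)) / ε * ‖y - x‖ =
              N / ε * ‖y - x‖ + (4 * C₀ / ε * ‖y - x‖ + 2 * (N * (4 * C₀ / ε * ‖y - x‖))) := by
            ring
          linarith
  · intro x hx
    obtain ⟨z, hz, hxz⟩ := hcov x hx
    have h0 : ∏ w ∈ s, (1 - B w x) = 0 :=
      Finset.prod_eq_zero hz (by rw [hBo z x hxz.le, sub_self])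
    have hDx : D x = ∑ w ∈ s, B w x := by simp only [hD, h0, add_zero]
    rw [← Finset.sum_div, ← hDx]
    exact div_self (lt_of_lt_of_le one_pos (hD1 x)).ne'
  · intro x t hts ht
    have h1 := hovl x t hts ht
    have h2 : 0 ≤ (1 + 2 * N) * (4 * C₀) := by positivity
    linarith

end Pool.Agent.Lib.MP_abd978_an.UN.H83
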